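import Pool.Agent.H78.Retract

/-! Over every integral domain (in particular every principal ideal domain) some variety defined
by multilinear identities has a free algebra with a non-free retract. -/

namespace Pool.Agent.Results.MP_ce47b3_al.NonFreeRetract

open Pool.Agent.H78.NAlg

theorem result (k : Type) [CommRing k] [IsDomain k] [IsPrincipalIdealRing k] :
    ∃ S : Set (FreeNonUnitalNonAssocAlgebra k ℕ), (∀ f ∈ S, IsMultilinear f) ∧
      ∃ A B : Alg k, IsVFree S A ∧ IsRetractOf B A ∧ ¬ IsVFree S B :=
  ⟨Ids k, ids_multilinear, main⟩

end Pool.Agent.Results.MP_ce47b3_al.NonFreeRetract
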